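import Mathlib

/-!
# Isomorphism-permutations of self-complementary graphs
-/

set_option autoImplicit false

namespace Pool.Agent.N523.SC

variable {V : Type}

/-- `P` is an isomorphism-permutation of `G`: an isomorphism from `G` onto its complement. -/
def IsoPerm (G : SimpleGraph V) (P : Equiv.Perm V) : Prop :=
  ∀ u v : V, u ≠ v → (G.Adj u v ↔ ¬ G.Adj (P u) (P v))

/-- `G` is self-complementary. -/
def SelfCompl (G : SimpleGraph V) : Prop := Nonempty (G ≃g Gᶜ)

/-- The set `F(G)` of the vertices fixed by at least one isomorphism-permutation. -/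
def FixSet (G : SimpleGraph V) : Set V := {v | ∃ P : Equiv.Perm V, IsoPerm G P ∧ P v = v}

/-- The set `N(G)` of the edges `uv` such that `u`, `v` are consecutive in a cycle of some
isomorphism-permutation. -/
def NeighSet (G : SimpleGraph V) : Set (Sym2 V) :=
  {e | e ∈ G.edgeSet ∧ ∃ P : Equiv.Perm V, IsoPerm G P ∧ ∃ u v : V, e = s(u, v) ∧ P u = v}

/-- The set of the triangles of `G` (3-cliques) that contain `v`. -/
def TrianglesAt (G : SimpleGraph V) (v : V) : Set (Finset V) :=
  {s | G.IsNClique 3 s ∧ v ∈ s}

/-- Every edge of `G` lies in the same number of triangles. -/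
def EdgeRegular (G : SimpleGraph V) : Prop :=
  ∃ l : ℕ, ∀ u v : V, G.Adj u v → (G.commonNeighbors u v).ncard = l

/-- Every two distinct nonadjacent vertices have the same number of common neighbours. -/
def CoEdgeRegular (G : SimpleGraph V) : Prop :=
  ∃ m : ℕ, ∀ u v : V, u ≠ v → ¬ G.Adj u v → (G.commonNeighbors u v).ncard = m

/-- `G` is strongly regular. -/
def StronglyRegular (G : SimpleGraph V) : Prop :=
  (∃ d : ℕ, ∀ v : V, (G.neighborSet v).ncard = d) ∧ EdgeRegular G ∧ CoEdgeRegular G

end Pool.Agent.N523.SC
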